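import Mathlib

/-!
The Stone-Čech remainder of a realcompact space is selectively highly divergent.
-/

set_option autoImplicit false

open Set Filter Topology

namespace Pool.Agent.Results.MP_47dce7_gt.RemainderSHD

universe u v

/-- No subsequence of the sequence `x` converges to any point of the space. -/
def NoConvSubseq {X : Type u} [TopologicalSpace X] (x : ℕ → X) : Prop :=
  ∀ φ : ℕ → ℕ, StrictMono φ → ∀ a : X, ¬ Tendsto (x ∘ φ) atTop (𝓝 a)

/-- Selectively highly divergent (SHD) spaces: for every sequence `(U n)` of nonempty open sets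
one can choose points `x n ∈ U n` such that `(x n)` has no convergent subsequences. -/
def SHD (X : Type u) [TopologicalSpace X] : Prop :=
  ∀ U : ℕ → Set X, (∀ n, IsOpen (U n) ∧ (U n).Nonempty) →
    ∃ x : ℕ → X, (∀ n, x n ∈ U n) ∧ NoConvSubseq x

/-- A space is realcompact if it embeds as a closed subspace into a power of the real line. -/
def Realcompact (X : Type u) [TopologicalSpace X] : Prop :=
  ∃ (ι : Type v) (e : X → ι → ℝ), IsClosedEmbedding e

/-- The Stone-Čech remainder `X* = βX \ X`. -/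
def Remainder (X : Type u) [TopologicalSpace X] : Set (StoneCech X) :=
  (range (stoneCechUnit : X → StoneCech X))ᶜ

variable {X : Type u} [TopologicalSpace X]

/-- The basic property of realcompact spaces. -/
lemma exists_fun (hX : Realcompact.{u, v} X) {p : StoneCech X}
    (hp : p ∉ range (stoneCechUnit : X → StoneCech X)) :
    ∃ F : StoneCech X → ℝ, Continuous F ∧ (∀ b, 0 ≤ F b) ∧ F p = 0 ∧
      ∀ x, 0 < F (stoneCechUnit x) := by
  obtain ⟨ι, e, he⟩ := hX
  by_contra hcon
  push Not at hcon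
  have hei : ∀ i, Continuous fun x => e x i := fun i => (continuous_apply i).comp he.continuous
  -- the bounded functions `1 / (1 + |e i|)`
  have hpos : ∀ i x, 0 < 1 / (1 + |e x i|) := fun i x => by positivity
  let f : ι → X → unitInterval := fun i x => ⟨1 / (1 + |e x i|), (hpos i x).le, by
    rw [div_le_one (by positivity)]
    linarith [abs_nonneg (e x i)]⟩
  have hf : ∀ i, Continuous (f i) := by
    intro i
    refine Continuous.subtype_mk ?_ _
    exact continuous_const.div (continuous_const.add (hei i).abs) fun x => by positivity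
  let F : ι → StoneCech X → ℝ := fun i b => ((stoneCechExtend (hf i) b : unitInterval) : ℝ)
  have hF : ∀ i, Continuous (F i) := fun i =>
    continuous_subtype_val.comp (continuous_stoneCechExtend _)
  have hFx : ∀ i x, F i (stoneCechUnit x) = 1 / (1 + |e x i|) := by
    intro i x
    show ((stoneCechExtend (hf i) (stoneCechUnit x) : unitInterval) : ℝ) = _
    rw [stoneCechExtend_stoneCechUnit]
  have hFp : ∀ i, 0 < F i p := by
    intro i
    have h0 : ∀ b, 0 ≤ F i b := fun b => (stoneCechExtend (hf i) b).2.1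
    refine lt_of_le_of_ne (h0 p) fun h => ?_
    obtain ⟨x, hx⟩ := hcon (F i) (hF i) h0 h.symm
    rw [hFx] at hx
    exact absurd (hpos i x) (not_lt.2 hx)
  -- an ultrafilter on `X` converging to `p`
  have hne : (comap (stoneCechUnit : X → StoneCech X) (𝓝 p)).NeBot := by
    rw [comap_neBot_iff]
    intro t ht
    obtain ⟨x, hx⟩ := denseRange_stoneCechUnit.exists_mem_open isOpen_interior
      ⟨p, mem_interior_iff_mem_nhds.2 ht⟩
    exact ⟨x, interior_subset hx⟩
  let U : Ultrafilter X := Ultrafilter.of (comap stoneCechUnit (𝓝 p))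
  have hU : Tendsto (stoneCechUnit : X → StoneCech X) U (𝓝 p) :=
    tendsto_iff_comap.2 (Ultrafilter.of_le _)
  -- the coordinates converge along the ultrafilter
  have hz : ∀ i, ∃ z : ℝ, Tendsto (fun x => e x i) U (𝓝 z) := by
    intro i
    have h1 : Tendsto (fun x => F i (stoneCechUnit x)) U (𝓝 (F i p)) :=
      ((hF i).tendsto p).comp hU
    have h2 : ∀ᶠ x in (U : Filter X), F i p / 2 < F i (stoneCechUnit x) :=
      (tendsto_order.1 h1).1 _ (by linarith [hFp i])
    have h3 : ∀ᶠ x in (U : Filter X), e x i ∈ Icc (-(2 / F i p)) (2 / F i p) := by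
      filter_upwards [h2] with x hx
      rw [hFx, lt_div_iff₀ (by positivity)] at hx
      rw [mem_Icc, ← abs_le, le_div_iff₀ (hFp i)]
      nlinarith [hFp i, abs_nonneg (e x i)]
    obtain ⟨z, _, hz⟩ := (isCompact_Icc (a := -(2 / F i p)) (b := 2 / F i p)).ultrafilter_le_nhds
      (U.map fun x => e x i) (by
        rw [le_principal_iff]
        exact h3)
    exact ⟨z, hz⟩
  choose z hz using hz
  have hlim : Tendsto e U (𝓝 z) := tendsto_pi_nhds.2 hz
  have hmem : z ∈ range e := he.isClosed_range.mem_of_tendsto hlim (Eventually.of_forall fun x => ⟨x, rfl⟩)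
  obtain ⟨x, rfl⟩ := hmem
  have hUx : Tendsto (id : X → X) U (𝓝 x) := he.isInducing.tendsto_nhds_iff.2 hlim
  have h1 : Tendsto (stoneCechUnit : X → StoneCech X) U (𝓝 (stoneCechUnit x)) :=
    (continuous_stoneCechUnit.tendsto x).comp hUx
  exact hp ⟨x, tendsto_nhds_unique h1 hU⟩

/-- A version with a prescribed neighbourhood. -/
lemma exists_fun' (hX : Realcompact.{u, v} X) {p : StoneCech X}
    (hp : p ∉ range (stoneCechUnit : X → StoneCech X)) {V : Set (StoneCech X)} (hV : IsOpen V)
    (hpV : p ∈ V) :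
    ∃ F : StoneCech X → ℝ, Continuous F ∧ F p = 0 ∧ (∀ x, 0 < F (stoneCechUnit x)) ∧
      ∀ b, b ∉ V → 1 ≤ F b := by
  obtain ⟨F, hF, hF0, hFp, hFx⟩ := exists_fun hX hp
  obtain ⟨g, hg0, hg1, hg⟩ := exists_continuous_zero_one_of_isClosed
    (isClosed_singleton (x := p)) hV.isClosed_compl
    (disjoint_singleton_left.2 fun h => h hpV)
  refine ⟨fun b => F b + g b, hF.add g.continuous, ?_, ?_, ?_⟩
  · have : g p = 0 := hg0 rfl
    simp only [hFp, this, add_zero]
  · intro x
    have := (hg (stoneCechUnit x)).1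
    have := hFx x
    linarith
  · intro b hb
    have : g b = 1 := hg1 hb
    have := hF0 b
    linarith

omit [TopologicalSpace X] in
/-- Injective choices from a sequence of infinite sets. -/
lemma exists_injective_choice {A : ℕ → Set X} (hA : ∀ m, (A m).Infinite) :
    ∃ x : ℕ → X, Function.Injective x ∧ ∀ m, x m ∈ A m := by
  classical
  have h1 : ∀ (m : ℕ) (s : Finset X), ∃ x, x ∈ A m ∧ x ∉ s := fun m s =>
    (hA m).exists_notMem_finset s
  choose c hc1 hc2 using h1
  let s : ℕ → Finset X := fun n => Nat.rec ∅ (fun m s => insert (c m s) s) n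
  have hs : ∀ n, s (n + 1) = insert (c n (s n)) (s n) := fun n => rfl
  have hmono : Monotone s := monotone_nat_of_le_succ fun n => by
    rw [hs]; exact Finset.subset_insert _ _
  refine ⟨fun m => c m (s m), ?_, fun m => hc1 _ _⟩
  intro m n hmn
  have key : ∀ m n, m < n → c m (s m) ≠ c n (s n) := by
    intro m n h heq
    apply hc2 n (s n)
    rw [← heq]
    exact hmono (Nat.succ_le_of_lt h) (by rw [Nat.succ_eq_add_one, hs]; exact Finset.mem_insert_self _ _)
  rcases lt_trichotomy m n with h | h | h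
  · exact absurd hmn (key m n h)
  · exact h
  · exact absurd hmn.symm (key n m h)

set_option maxHeartbeats 1000000 in
/-- **The Stone-Čech remainder of a realcompact space is selectively highly divergent.** -/
theorem result (X : Type u) [TopologicalSpace X] [T35Space X] (hX : Realcompact.{u, v} X) :
    SHD (Remainder X) := by
  intro U hU
  have hinj : Function.Injective (stoneCechUnit : X → StoneCech X) :=
    injective_stoneCechUnit_of_t35Space
  -- the functions `f n`
  have h1 : ∀ n, ∃ (V : Set (StoneCech X)) (p : StoneCech X) (f : StoneCech X → ℝ),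
      Subtype.val ⁻¹' V = U n ∧ p ∉ range (stoneCechUnit : X → StoneCech X) ∧
      Continuous f ∧ f p = 0 ∧ (∀ x, 0 < f (stoneCechUnit x)) ∧ ∀ b, b ∉ V → 1 ≤ f b := by
    intro n
    obtain ⟨hUo, ⟨p, hp⟩, hpU⟩ := hU n
    obtain ⟨V, hV, hVU⟩ := isOpen_induced_iff.1 hUo
    have hpV : p ∈ V := by
      rw [← hVU] at hpU
      exact hpU
    obtain ⟨f, hf⟩ := exists_fun' hX hp hV hpV
    exact ⟨V, p, f, hVU, hp, hf⟩
  choose V p f hVU hp hf hfp hfx hfV using h1
  -- the points
  let A : ℕ → Set X := fun m =>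
    {x | f (Nat.unpair m).1 (stoneCechUnit x) < 1 / ((Nat.unpair m).2 + 1 : ℝ)}
  have hA : ∀ m, (A m).Infinite := by
    intro m hfin
    set n := (Nat.unpair m).1
    have hO : IsOpen ({b | f n b < 1 / ((Nat.unpair m).2 + 1 : ℝ)} \ (stoneCechUnit '' A m)) :=
      (isOpen_lt (hf n) continuous_const).sdiff (hfin.image _).isClosed
    obtain ⟨x, hx⟩ := denseRange_stoneCechUnit.exists_mem_open hO ⟨p n, by
      show f n (p n) < _
      rw [hfp]
      positivity, fun ⟨x, _, hx⟩ => hp n ⟨x, hx⟩⟩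
    exact hx.2 ⟨x, hx.1, rfl⟩
  obtain ⟨x', hx'inj, hx'A⟩ := exists_injective_choice hA
  set x : ℕ → ℕ → X := fun n j => x' (Nat.pair n j) with hx
  have hxf : ∀ n j, f n (stoneCechUnit (x n j)) < 1 / ((j : ℝ) + 1) := by
    intro n j
    have := hx'A (Nat.pair n j)
    simp only [A, mem_ofPred_eq, Nat.unpair_pair] at this
    exact this
  have hxinj : ∀ n j m i, x n j = x m i → n = m ∧ j = i := fun n j m i h =>
    Nat.pair_eq_pair.1 (hx'inj h)
  -- cluster points
  have h2 : ∀ n, ∃ y : StoneCech X, MapClusterPt y atTop fun j => stoneCechUnit (x n j) := fun n =>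
    exists_clusterPt_of_compactSpace _
  choose y hy using h2
  have hyO : ∀ (n : ℕ) (O : Set (StoneCech X)), IsOpen O → y n ∈ O →
      ∃ᶠ j in atTop, stoneCechUnit (x n j) ∈ O := fun n O hO hyO =>
    (mapClusterPt_iff_frequently.1 (hy n)) O (hO.mem_nhds hyO)
  have hlim0 : Tendsto (fun j : ℕ => 1 / ((j : ℝ) + 1)) atTop (𝓝 0) :=
    tendsto_one_div_add_atTop_nhds_zero_nat
  have hyf : ∀ n, f n (y n) ≤ 0 := by
    intro n
    by_contra hcon
    rw [not_le] at hcon
    have h3 := hyO n {b | f n (y n) / 2 < f n b} (isOpen_lt continuous_const (hf n))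
      (show f n (y n) / 2 < f n (y n) by linarith)
    have h4 : ∀ᶠ j : ℕ in atTop, 1 / ((j : ℝ) + 1) < f n (y n) / 2 :=
      (tendsto_order.1 hlim0).2 _ (by linarith)
    obtain ⟨j, hj1, hj2⟩ := (h3.and_eventually h4).exists
    have hj1' : f n (y n) / 2 < f n (stoneCechUnit (x n j)) := hj1
    linarith [hxf n j]
  have hyX : ∀ n, y n ∉ range (stoneCechUnit : X → StoneCech X) := by
    rintro n ⟨z, hz⟩
    have := hyf n
    rw [← hz] at this
    exact absurd (hfx n z) (not_lt.2 this)
  have hyV : ∀ n, y n ∈ V n := by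
    intro n
    by_contra h
    linarith [hfV n _ h, hyf n]
  refine ⟨fun n => ⟨y n, hyX n⟩, fun n => by rw [← hVU n]; exact hyV n, ?_⟩
  intro φ hφ a ha
  have ha' : Tendsto (fun k => y (φ k)) atTop (𝓝 a.1) := tendsto_subtype_rng.1 ha
  obtain ⟨g, hg, hg0, hga, hgx⟩ := exists_fun hX a.2
  let ε : ℕ → ℝ := fun k => g (y (φ k)) + 1 / ((k : ℝ) + 1)
  have hε : Tendsto ε atTop (𝓝 0) := by
    have h3 := ((hg.tendsto a.1).comp ha').add hlim0
    rw [hga, add_zero] at h3
    exact h3
  have hεpos : ∀ k, 0 < ε k := fun k => add_pos_of_nonneg_of_pos (hg0 _) (by positivity)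
  have hyε : ∀ k, g (y (φ k)) < ε k := fun k => lt_add_of_pos_right _ (by positivity)
  -- the sets `M k`
  let M : ℕ → Set (StoneCech X) := fun k =>
    {b | ∃ i, b = stoneCechUnit (x (φ k) i) ∧ g b < ε k}
  -- the normal space `S`
  let S : Set (StoneCech X) := {b | 0 < g b ∧ ∀ k, 0 < f (φ k) b ∨ 2 * ε k ≤ g b}
  have hXS : ∀ z : X, stoneCechUnit z ∈ S := fun z => ⟨hgx z, fun k => Or.inl (hfx _ z)⟩
  have hSσ : IsSigmaCompact S := by
    have h3 : S = ⋃ m : ℕ, {b | 1 / ((m : ℝ) + 1) ≤ g b ∧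
        ∀ k, 1 / ((m : ℝ) + 1) ≤ f (φ k) b ∨ 2 * ε k ≤ g b} := by
      ext b
      constructor
      · rintro ⟨hb1, hb2⟩
        -- only finitely many `k` matter
        have h4 : ∀ᶠ k in atTop, ε k < g b / 2 := (tendsto_order.1 hε).2 _ (by linarith)
        obtain ⟨K, hK⟩ := eventually_atTop.1 h4
        have h5 : ∀ k, ∃ c : ℝ, 0 < c ∧ (c ≤ f (φ k) b ∨ 2 * ε k ≤ g b) := by
          intro k
          rcases hb2 k with h | h
          · exact ⟨_, h, Or.inl le_rfl⟩
          · exact ⟨1, one_pos, Or.inr h⟩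
        choose c hc hc' using h5
        obtain ⟨δ, hδ, hδ'⟩ : ∃ δ : ℝ, 0 < δ ∧ ∀ k ∈ Finset.range K, δ ≤ c k := by
          rcases (Finset.range K).eq_empty_or_nonempty with h | h
          · exact ⟨1, one_pos, by simp [h]⟩
          · obtain ⟨k, _, hkmin⟩ := Finset.exists_min_image (Finset.range K) c h
            exact ⟨c k, hc k, hkmin⟩
        obtain ⟨m, hm⟩ := exists_nat_one_div_lt (lt_min hb1 hδ)
        refine mem_iUnion.2 ⟨m, (hm.trans_le (min_le_left _ _)).le, fun k => ?_⟩
        by_cases hk : k < K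
        · rcases hc' k with h | h
          · exact Or.inl (((hm.trans_le (min_le_right _ _)).le.trans
              (hδ' k (Finset.mem_range.2 hk))).trans h)
          · exact Or.inr h
        · have := hK k (not_lt.1 hk)
          exact Or.inr (by linarith)
      · intro hb
        obtain ⟨m, hb1, hb2⟩ := mem_iUnion.1 hb
        have hm : (0 : ℝ) < 1 / ((m : ℝ) + 1) := by positivity
        exact ⟨hm.trans_le hb1, fun k => (hb2 k).imp (fun h => hm.trans_le h) id⟩
    rw [h3]
    refine isSigmaCompact_iUnion_of_isCompact _ fun m => ?_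
    apply IsClosed.isCompact
    have h4 : {b | 1 / ((m : ℝ) + 1) ≤ g b ∧
        ∀ k, 1 / ((m : ℝ) + 1) ≤ f (φ k) b ∨ 2 * ε k ≤ g b} =
        {b | 1 / ((m : ℝ) + 1) ≤ g b} ∩
          ⋂ k, ({b | 1 / ((m : ℝ) + 1) ≤ f (φ k) b} ∪ {b | 2 * ε k ≤ g b}) := by
      ext b
      simp only [mem_ofPred_eq, mem_inter_iff, mem_iInter, mem_union]
    rw [h4]
    exact (isClosed_le continuous_const hg).inter (isClosed_iInter fun k =>
      (isClosed_le continuous_const (hf _)).union (isClosed_le continuous_const hg))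
  have : SigmaCompactSpace S := isSigmaCompact_iff_sigmaCompactSpace.1 hSσ
  -- unions of sets `M k` are closed in `S`
  have hclosed : ∀ T : Set ℕ, IsClosed (Subtype.val ⁻¹' (⋃ k ∈ T, M k) : Set S) := by
    intro T
    rw [← isOpen_compl_iff, isOpen_iff_mem_nhds]
    rintro ⟨z, hzS⟩ hz
    -- the neighbourhood `W` of `z`
    have hK : {k | g z / 2 < ε k}.Finite := by
      have h4 : ∀ᶠ k in atTop, ε k < g z / 2 := (tendsto_order.1 hε).2 _ (by linarith [hzS.1])
      obtain ⟨K, hK⟩ := eventually_atTop.1 h4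
      refine (finite_Iio K).subset fun k hk => ?_
      by_contra h
      exact absurd (hK k (not_lt.1 h)) (not_lt.2 (le_of_lt hk))
    have h5 : ∀ k, ∃ W : Set (StoneCech X), IsOpen W ∧ z ∈ W ∧ (W ∩ M k).Finite := by
      intro k
      rcases hzS.2 k with h | h
      · refine ⟨{b | f (φ k) z / 2 < f (φ k) b}, isOpen_lt continuous_const (hf _),
          (show f (φ k) z / 2 < f (φ k) z by linarith), ?_⟩
        have h6 : ∀ᶠ j : ℕ in atTop, 1 / ((j : ℝ) + 1) < f (φ k) z / 2 :=
          (tendsto_order.1 hlim0).2 _ (by linarith)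
        obtain ⟨J, hJ⟩ := eventually_atTop.1 h6
        refine ((finite_Iio J).image fun i => stoneCechUnit (x (φ k) i)).subset ?_
        rintro b ⟨hb, i, rfl, _⟩
        refine ⟨i, ?_, rfl⟩
        by_contra hi
        have h7 := hJ i (not_lt.1 hi)
        have h8 := hxf (φ k) i
        have h9 : f (φ k) z / 2 < f (φ k) (stoneCechUnit (x (φ k) i)) := hb
        linarith
      · refine ⟨{b | ε k < g b}, isOpen_lt continuous_const hg,
          (show ε k < g z by linarith [hεpos k]), ?_⟩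
        refine Set.finite_empty.subset ?_
        rintro b ⟨hb, i, _, hb'⟩
        exact absurd (show ε k < g b from hb) (not_lt.2 hb'.le)
    choose W hWo hzW hWfin using h5
    -- the trace of the union on the neighbourhood is finite
    have hfin : (({b | g z / 2 < g b} ∩ ⋂ k ∈ {k | g z / 2 < ε k}, W k) ∩ ⋃ k ∈ T, M k).Finite := by
      refine (hK.biUnion fun k _ => hWfin k).subset ?_
      rintro b ⟨⟨hb1, hb2⟩, hb3⟩
      obtain ⟨k, _, i, hbi, hbk⟩ := mem_iUnion₂.1 hb3
      have hk : g z / 2 < ε k := lt_trans hb1 hbk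
      exact mem_iUnion₂.2 ⟨k, hk, mem_iInter₂.1 hb2 k hk, i, hbi, hbk⟩
    have hopen : IsOpen (({b | g z / 2 < g b} ∩ ⋂ k ∈ {k | g z / 2 < ε k}, W k) \
        (({b | g z / 2 < g b} ∩ ⋂ k ∈ {k | g z / 2 < ε k}, W k) ∩ ⋃ k ∈ T, M k)) := by
      refine IsOpen.sdiff ?_ hfin.isClosed
      exact (isOpen_lt continuous_const hg).inter (hK.isOpen_biInter fun k _ => hWo k)
    refine mem_of_superset ((hopen.preimage continuous_subtype_val).mem_nhds ?_) ?_
    · refine ⟨⟨?_, mem_iInter₂.2 fun k _ => hzW k⟩, fun h => hz h.2⟩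
      show g z / 2 < g z
      linarith [hzS.1]
    · rintro ⟨b, hbS⟩ hb hb'
      exact hb.2 ⟨hb.1, hb'⟩
  -- the separating function
  have hdisj : Disjoint (Subtype.val ⁻¹' (⋃ k ∈ {k | Even k}, M k) : Set S)
      (Subtype.val ⁻¹' (⋃ k ∈ {k | ¬ Even k}, M k)) := by
    rw [disjoint_left]
    rintro ⟨b, hbS⟩ hb1 hb2
    obtain ⟨k, hk, i, hbi, _⟩ := mem_iUnion₂.1 (show b ∈ ⋃ k ∈ {k | Even k}, M k from hb1)
    obtain ⟨l, hl, j, hbj, _⟩ := mem_iUnion₂.1 (show b ∈ ⋃ k ∈ {k | ¬ Even k}, M k from hb2)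
    have h3 := hinj (hbi.symm.trans hbj)
    have h4 := hφ.injective (hxinj _ _ _ _ h3).1
    exact hl (h4 ▸ hk)
  obtain ⟨ψ, hψ0, hψ1, hψ⟩ := exists_continuous_zero_one_of_isClosed (hclosed _) (hclosed _) hdisj
  let Ψ : X → unitInterval := fun z => ⟨ψ ⟨stoneCechUnit z, hXS z⟩, hψ _⟩
  have hΨ : Continuous Ψ := by
    refine Continuous.subtype_mk ?_ _
    exact ψ.continuous.comp (continuous_stoneCechUnit.subtype_mk _)
  let Φ : StoneCech X → ℝ := fun b => ((stoneCechExtend hΨ b : unitInterval) : ℝ)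
  have hΦ : Continuous Φ := continuous_subtype_val.comp (continuous_stoneCechExtend _)
  have hΦx : ∀ z : X, Φ (stoneCechUnit z) = ψ ⟨stoneCechUnit z, hXS z⟩ := by
    intro z
    show ((stoneCechExtend hΨ (stoneCechUnit z) : unitInterval) : ℝ) = _
    rw [stoneCechExtend_stoneCechUnit]
  -- values at the points `y (φ k)`
  have hval : ∀ (c : ℝ) (k : ℕ), (∀ b ∈ M k, Φ b = c) → Φ (y (φ k)) = c := by
    intro c k h
    by_contra hne
    have hO : IsOpen ({b | g b < ε k} ∩ {b | Φ b ≠ c}) :=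
      (isOpen_lt hg continuous_const).inter (isOpen_ne_fun hΦ continuous_const)
    obtain ⟨i, hi⟩ := (hyO (φ k) _ hO ⟨hyε k, hne⟩).exists
    exact hi.2 (h _ ⟨i, rfl, hi.1⟩)
  have hval0 : ∀ k, Even k → Φ (y (φ k)) = 0 := by
    intro k hk
    apply hval
    rintro b ⟨i, rfl, hb⟩
    rw [hΦx]
    exact hψ0 (mem_iUnion₂.2 ⟨k, hk, i, rfl, hb⟩)
  have hval1 : ∀ k, ¬ Even k → Φ (y (φ k)) = 1 := by
    intro k hk
    apply hval
    rintro b ⟨i, rfl, hb⟩
    rw [hΦx]
    exact hψ1 (mem_iUnion₂.2 ⟨k, hk, i, rfl, hb⟩)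
  have hlimΦ : Tendsto (fun k => Φ (y (φ k))) atTop (𝓝 (Φ a.1)) := (hΦ.tendsto _).comp ha'
  have h3 : Tendsto (fun k => Φ (y (φ (2 * k)))) atTop (𝓝 (Φ a.1)) :=
    hlimΦ.comp (show StrictMono fun k : ℕ => 2 * k from fun a b h => by
      show 2 * a < 2 * b; omega).tendsto_atTop
  have h4 : Tendsto (fun k => Φ (y (φ (2 * k + 1)))) atTop (𝓝 (Φ a.1)) :=
    hlimΦ.comp (show StrictMono fun k : ℕ => 2 * k + 1 from fun a b h => by
      show 2 * a + 1 < 2 * b + 1; omega).tendsto_atTop
  have h5 : Φ a.1 = 0 := by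
    refine tendsto_nhds_unique h3 ?_
    refine tendsto_const_nhds.congr fun k => ?_
    exact (hval0 _ (even_two_mul k)).symm
  have h6 : Φ a.1 = 1 := by
    refine tendsto_nhds_unique h4 ?_
    refine tendsto_const_nhds.congr fun k => ?_
    exact (hval1 _ (Nat.not_even_two_mul_add_one k)).symm
  exact zero_ne_one (h5.symm.trans h6)

end Pool.Agent.Results.MP_47dce7_gt.RemainderSHD
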